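import Mathlib
import Pool.Agent.Q72.Kob.Seq

/-!
# The lower bound `-1/2 log d_D` for the Kobayashi distance fails on Reinhardt domains

The definitions (`kobayashi`, `bdist`, `IsReinhardt`, `IsPseudoconvex`) are in
`Pool.Agent.Q72.Kob.Defs`.
-/

set_option autoImplicit false

open Metric Set Filter Topology

namespace Pool.Agent.Results.MP_3c459d_an.KobayashiBoundFails

open Q72.Kob

/-- In every dimension `n ≥ 3` there are a bounded pseudoconvex Reinhardt domain `D` and a boundary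
point `ζ₀` with all coordinates nonzero such that for every base point `z₀ ∈ D` some sequence in
`D` converging to `ζ₀` has `k_D(z₀, z) + (1/2) log d_D(z) → -∞`. -/
theorem result :
    ∀ n : ℕ, 3 ≤ n → ∃ (D : Set (EuclideanSpace ℂ (Fin n))) (ζ₀ : EuclideanSpace ℂ (Fin n)),
      IsOpen D ∧ IsConnected D ∧ Bornology.IsBounded D ∧ IsReinhardt D ∧ IsPseudoconvex D ∧
      ζ₀ ∈ frontier D ∧ (∀ i, ζ₀ i ≠ 0) ∧
      ∀ z₀ ∈ D, ∃ z : ℕ → EuclideanSpace ℂ (Fin n), (∀ m, z m ∈ D) ∧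
        Tendsto z atTop (𝓝 ζ₀) ∧
        Tendsto (fun m => kobayashi D z₀ (z m) + 1 / 2 * Real.log (bdist D (z m))) atTop atBot := by
  intro n hn
  obtain ⟨n, rfl⟩ : ∃ m, n = m + 3 := ⟨n - 3, by omega⟩
  have h : ∀ i : Fin (n + 3), i ∉ (∅ : Finset (Fin (n + 3))) := fun i => by simp
  refine ⟨Dom Mseq ∅, zeta0 ∅, dom_isOpen Mseq_zero _, dom_connected (h 0) (h 1) (h 2),
    dom_bounded _ _, dom_reinhardt _ _, dom_pseudoconvex Mseq_zero _,
    zeta0_frontier (h 0) (h 1) (h 2), fun i => ?_, fun z₀ hz₀ => ?_⟩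
  · rw [zeta0, V_apply]
    split_ifs
    · exact one_ne_zero
    · exact Complex.ofReal_ne_zero.2 (Real.exp_pos 1).ne'
    · exact one_ne_zero
    · rename_i hi
      exact absurd hi (h i)
    · exact one_ne_zero
  · exact ⟨zz ∅, zz_mem (h 0) (h 1) (h 2), zz_tendsto ∅, fail1 (h 0) (h 1) (h 2) hz₀⟩

end Pool.Agent.Results.MP_3c459d_an.KobayashiBoundFails
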